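import Mathlib.ModelTheory.Semantics
import Mathlib.ModelTheory.LanguageMap
import Mathlib.Order.RelClasses

/-!
# Term rewrite systems and total termination

A signature is given by the function symbols of a Mathlib first-order language `L` (function
symbols of arity `n` form the type `L.Functions n`; relation symbols play no role), terms are
Mathlib's `L.Term α`, ground terms are `L.Term Empty`.
-/

namespace Pool.Agent.TotalTermination

open FirstOrder FirstOrder.Language

universe u v u' v'

/-- A term rewrite system over the function symbols of `L`, with variables from `ℕ`: a set of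
rules `l → r` (written as pairs `(l, r)`) where `l` is not a variable and every variable of `r`
occurs in `l`. -/
structure TRS (L : FirstOrder.Language.{u, v}) where
  /-- the set of rules `(l, r)` -/
  rules : Set (L.Term ℕ × L.Term ℕ)
  /-- left-hand sides are not variables -/
  lhs_ne_var : ∀ p ∈ rules, ∀ x : ℕ, p.1 ≠ Term.var x
  /-- every variable of the right-hand side occurs in the left-hand side -/
  rhs_vars : ∀ p ∈ rules, p.2.varFinset ⊆ p.1.varFinset

/-- A relation `lt` on ground terms is monotonic if replacing one argument of a function symbol by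
a smaller one makes the whole term smaller. -/
def Monotonic (L : FirstOrder.Language.{u, v}) (lt : L.Term Empty → L.Term Empty → Prop) : Prop :=
  ∀ ⦃n : ℕ⦄ (f : L.Functions n) (ts : Fin n → L.Term Empty) (i : Fin n) (s t : L.Term Empty),
    lt s t → lt (Term.func f (Function.update ts i s)) (Term.func f (Function.update ts i t))

/-- `R` is totally terminating: there is a monotonic well-ordering `lt` (a well-founded strict
total order) on the ground terms such that `rσ < lσ` for every rule `l → r` of `R` and every
ground substitution `σ`. -/
def TRS.TotallyTerminating {L : FirstOrder.Language.{u, v}} (R : TRS L) : Prop :=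
  ∃ lt : L.Term Empty → L.Term Empty → Prop, IsWellOrder (L.Term Empty) lt ∧ Monotonic L lt ∧
    ∀ p ∈ R.rules, ∀ σ : ℕ → L.Term Empty, lt (p.2.subst σ) (p.1.subst σ)

theorem varFinset_onTerm {L : FirstOrder.Language.{u, v}} {L' : FirstOrder.Language.{u', v'}} (φ : L →ᴸ L')
    (t : L.Term ℕ) : (φ.onTerm t).varFinset = t.varFinset := by
  induction t with
  | var x => simp [LHom.onTerm]
  | func f ts ih => simp [LHom.onTerm, ih]

/-- The union `R₁ ∪ R₂` of two disjoint term rewrite systems, as a term rewrite system over the
disjoint union of the two signatures. -/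
def TRS.disjointUnion {L₁ : FirstOrder.Language.{u, v}} {L₂ : FirstOrder.Language.{u', v'}} (R₁ : TRS L₁)
    (R₂ : TRS L₂) : TRS (L₁.sum L₂) where
  rules := {p | ∃ q ∈ R₁.rules, p = (LHom.sumInl.onTerm q.1, LHom.sumInl.onTerm q.2)} ∪
    {p | ∃ q ∈ R₂.rules, p = (LHom.sumInr.onTerm q.1, LHom.sumInr.onTerm q.2)}
  lhs_ne_var := by
    rintro p (⟨q, hq, rfl⟩ | ⟨q, hq, rfl⟩) x
    · have := R₁.lhs_ne_var q hq
      rcases h : q.1 with y | ⟨f, ts⟩
      · exact absurd h (this y)
      · simp [LHom.onTerm]
    · have := R₂.lhs_ne_var q hq
      rcases h : q.1 with y | ⟨f, ts⟩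
      · exact absurd h (this y)
      · simp [LHom.onTerm]
  rhs_vars := by
    rintro p (⟨q, hq, rfl⟩ | ⟨q, hq, rfl⟩)
    · simpa [varFinset_onTerm] using R₁.rhs_vars q hq
    · simpa [varFinset_onTerm] using R₂.rhs_vars q hq

end Pool.Agent.TotalTermination
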