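import Mathlib
import Pool.Agent.Lib.MP_8e1749_lc.Defs

/-!
# Monotone algebras on well-orders
-/

namespace Pool.Agent.TotalTermination

open FirstOrder FirstOrder.Language

universe u v w u' v' w'

/-- A (strictly) monotone algebra on a linear order `A`. -/
structure MonoAlg (L : FirstOrder.Language.{u, v}) (A : Type w) [LinearOrder A] where
  /-- interpretation of the function symbols -/
  op : ∀ {n : ℕ}, L.Functions n → (Fin n → A) → A
  /-- strict monotonicity in each argument -/
  mono : ∀ {n : ℕ} (f : L.Functions n) (a : Fin n → A) (i : Fin n) (x y : A), x < y →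
    op f (Function.update a i x) < op f (Function.update a i y)

namespace MonoAlg

variable {L : FirstOrder.Language.{u, v}} {A : Type w} [LinearOrder A] (M : MonoAlg L A)

/-- evaluation of terms -/
def eval {α : Type u'} (v : α → A) : L.Term α → A
  | Term.var x => v x
  | Term.func f ts => M.op f fun i => eval v (ts i)

theorem eval_var {α : Type u'} (v : α → A) (x : α) : M.eval v (Term.var x) = v x := rfl

theorem eval_func {α : Type u'} (v : α → A) {n : ℕ} (f : L.Functions n) (ts : Fin n → L.Term α) :
    M.eval v (Term.func f ts) = M.op f fun i => M.eval v (ts i) := rfl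

theorem eval_subst {α : Type u'} {β : Type v'} (t : L.Term α) (σ : α → L.Term β) (v : β → A) :
    M.eval v (t.subst σ) = M.eval (fun x => M.eval v (σ x)) t := by
  induction t with
  | var x => rfl
  | func f ts ih => simp [eval, ih]

theorem le_op [WellFoundedLT A] {n : ℕ} (f : L.Functions n) (a : Fin n → A) (i : Fin n) :
    a i ≤ M.op f a := by
  have h : StrictMono fun x => M.op f (Function.update a i x) := fun x y hxy =>
    M.mono f a i x y hxy
  simpa using h.le_apply (x := a i)

/-- `R` is compatible with the algebra: all rules are strictly decreasing. -/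
def Compat (R : TRS L) : Prop :=
  ∀ p ∈ R.rules, ∀ v : ℕ → A, M.eval v p.2 < M.eval v p.1

/-- transport along an order isomorphism -/
def map {B : Type w'} [LinearOrder B] (e : A ≃o B) : MonoAlg L B where
  op f b := e (M.op f fun i => e.symm (b i))
  mono f b i x y hxy := by
    have := M.mono f (fun i => e.symm (b i)) i (e.symm x) (e.symm y) (by simpa using hxy)
    have h : ∀ z, (fun j => e.symm (Function.update b i z j)) =
        Function.update (fun i => e.symm (b i)) i (e.symm z) := by
      intro z
      funext j
      by_cases hj : j = i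
      · subst hj; simp
      · simp [hj]
    simpa [h] using this

theorem eval_map {B : Type w'} [LinearOrder B] (e : A ≃o B) {α : Type u'} (v : α → B)
    (t : L.Term α) : (M.map e).eval v t = e (M.eval (fun x => e.symm (v x)) t) := by
  induction t with
  | var x => simp [eval]
  | func f ts ih =>
    simp only [eval_func, ih]
    simp [map]

theorem Compat.map {R : TRS L} {M : MonoAlg L A} (h : M.Compat R) {B : Type w'} [LinearOrder B]
    (e : A ≃o B) : (M.map e).Compat R := by
  intro p hp v
  rw [eval_map, eval_map, e.lt_iff_lt]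
  exact h p hp _

/-- the union of two algebras over disjoint signatures, on the same carrier -/
def sum {L₁ : FirstOrder.Language.{u, v}} {L₂ : FirstOrder.Language.{u', v'}}
    (M₁ : MonoAlg L₁ A) (M₂ : MonoAlg L₂ A) : MonoAlg (L₁.sum L₂) A where
  op f a := Sum.elim (fun f => M₁.op f a) (fun f => M₂.op f a) f
  mono f a i x y hxy := by
    rcases f with f | f
    · exact M₁.mono f a i x y hxy
    · exact M₂.mono f a i x y hxy

theorem eval_sum_inl {L₁ : FirstOrder.Language.{u, v}} {L₂ : FirstOrder.Language.{u', v'}}
    (M₁ : MonoAlg L₁ A) (M₂ : MonoAlg L₂ A) {α : Type*} (v : α → A) (t : L₁.Term α) :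
    (M₁.sum M₂).eval v (LHom.sumInl.onTerm t) = M₁.eval v t := by
  induction t with
  | var x => rfl
  | func f ts ih =>
    simp only [LHom.onTerm, eval_func, ih]
    rfl

theorem eval_sum_inr {L₁ : FirstOrder.Language.{u, v}} {L₂ : FirstOrder.Language.{u', v'}}
    (M₁ : MonoAlg L₁ A) (M₂ : MonoAlg L₂ A) {α : Type*} (v : α → A) (t : L₂.Term α) :
    (M₁.sum M₂).eval v (LHom.sumInr.onTerm t) = M₂.eval v t := by
  induction t with
  | var x => rfl
  | func f ts ih =>
    simp only [LHom.onTerm, eval_func, ih]
    rfl

theorem Compat.sum {L₁ : FirstOrder.Language.{u, v}} {L₂ : FirstOrder.Language.{u', v'}}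
    {M₁ : MonoAlg L₁ A} {M₂ : MonoAlg L₂ A} {R₁ : TRS L₁} {R₂ : TRS L₂}
    (h₁ : M₁.Compat R₁) (h₂ : M₂.Compat R₂) : (M₁.sum M₂).Compat (R₁.disjointUnion R₂) := by
  rintro p (⟨q, hq, rfl⟩ | ⟨q, hq, rfl⟩) v
  · simpa [eval_sum_inl] using h₁ q hq v
  · simpa [eval_sum_inr] using h₂ q hq v

end MonoAlg

/-! ### A monotonic well-order on ground terms: the shortlex order of Polish notation -/

section Shortlex

variable {L : FirstOrder.Language.{u, v}}

theorem listEncode_update {n : ℕ} (f : L.Functions n) (ts : Fin n → L.Term Empty) (i : Fin n) :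
    ∃ l₁ l₂ : List (Empty ⊕ (Σ i, L.Functions i)), ∀ s : L.Term Empty,
      (Term.func f (Function.update ts i s)).listEncode = l₁ ++ s.listEncode ++ l₂ := by
  obtain ⟨a, b, hab⟩ := List.append_of_mem (List.mem_finRange i)
  have hnd : (a ++ i :: b).Nodup := hab ▸ List.nodup_finRange n
  have hia : i ∉ a := by
    intro h
    have := (List.nodup_append.1 hnd).2.2 i h i (by simp)
    exact this rfl
  have hib : i ∉ b := by
    have := (List.nodup_append.1 hnd).2.1
    exact (List.nodup_cons.1 this).1
  refine ⟨Sum.inr ⟨n, f⟩ :: a.flatMap (fun j => (ts j).listEncode),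
    b.flatMap (fun j => (ts j).listEncode), fun s => ?_⟩
  have h1 : ∀ l : List (Fin n), i ∉ l →
      l.flatMap (fun j => (Function.update ts i s j).listEncode) =
        l.flatMap (fun j => (ts j).listEncode) := by
    intro l hl
    apply List.flatMap_congr
    intro j hj
    have : j ≠ i := fun h => hl (h ▸ hj)
    simp [this]
  simp only [Term.listEncode]
  rw [hab]
  simp [List.flatMap_append, h1 a hia, h1 b hib]

theorem lex_append {α : Type*} {r : α → α → Prop} {s t : List α}
    (h : List.Lex r s t) (hl : s.length = t.length) (l : List α) :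
    List.Lex r (s ++ l) (t ++ l) := by
  induction h with
  | nil => simp at hl
  | cons h ih => exact List.Lex.cons (ih (by simpa using hl))
  | rel h => exact List.Lex.rel h

theorem shortlex_append {α : Type*} {r : α → α → Prop} {l₁ l₂ s t : List α}
    (h : List.Shortlex r s t) : List.Shortlex r (l₁ ++ s ++ l₂) (l₁ ++ t ++ l₂) := by
  rw [List.append_assoc, List.append_assoc]
  apply List.Shortlex.append_left
  rw [List.shortlex_def] at h ⊢
  rcases h with h | ⟨h, h'⟩
  · left; simpa using h
  · right; exact ⟨by simpa using h, lex_append h' h l₂⟩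

theorem exists_monotonic_wellOrder (L : FirstOrder.Language.{u, v}) :
    ∃ lt : L.Term Empty → L.Term Empty → Prop, IsWellOrder (L.Term Empty) lt ∧
      Monotonic L lt := by
  let r : (Empty ⊕ (Σ i, L.Functions i)) → (Empty ⊕ (Σ i, L.Functions i)) → Prop :=
    WellOrderingRel
  let e : (fun s t : L.Term Empty => List.Shortlex r s.listEncode t.listEncode) ↪r
      List.Shortlex r := ⟨⟨_, Term.listEncode_injective⟩, Iff.rfl⟩
  have : IsWellFounded _ (List.Shortlex r) := ⟨List.Shortlex.wf IsWellFounded.wf⟩
  have : IsWellOrder _ (List.Shortlex r) := {}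
  refine ⟨fun s t => List.Shortlex r s.listEncode t.listEncode, e.isWellOrder, ?_⟩
  intro n f ts i s t hst
  obtain ⟨l₁, l₂, h⟩ := listEncode_update f ts i
  rw [h s, h t]
  exact shortlex_append hst

end Shortlex

/-- Soundness: a compatible strictly monotone algebra on a well-order yields total termination. -/
theorem TRS.TotallyTerminating.of_monoAlg {L : FirstOrder.Language.{u, v}} {R : TRS L}
    {A : Type w} [LinearOrder A] [WellFoundedLT A] (M : MonoAlg L A) (hM : M.Compat R) :
    R.TotallyTerminating := by
  obtain ⟨lt, hlt, hmono⟩ := exists_monotonic_wellOrder L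
  let ev : L.Term Empty → A := M.eval Empty.elim
  let lt' : L.Term Empty → L.Term Empty → Prop := fun s t =>
    Prod.Lex (· < ·) lt (ev s, s) (ev t, t)
  have : IsWellFounded (A × L.Term Empty) (Prod.Lex (· < ·) lt) := inferInstance
  have : IsWellOrder (A × L.Term Empty) (Prod.Lex (· < ·) lt) :=
    { trichotomous := by
        rintro ⟨a, s⟩ ⟨b, t⟩ h1 h2
        rw [Prod.lex_def] at h1 h2
        push Not at h1 h2
        have hab : a = b := le_antisymm h2.1 h1.1
        subst hab
        have : s = t := Std.Trichotomous.trichotomous (r := lt) s t (h1.2 rfl) (h2.2 rfl)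
        rw [this] }
  let e : lt' ↪r (Prod.Lex (· < ·) lt : A × L.Term Empty → A × L.Term Empty → Prop) :=
    ⟨⟨fun t => (ev t, t), fun s t h => (Prod.ext_iff.1 h).2⟩, Iff.rfl⟩
  refine ⟨lt', e.isWellOrder, ?_, ?_⟩
  · intro n f ts i s t hst
    have hev : ∀ z, ev (Term.func f (Function.update ts i z)) =
        M.op f (Function.update (fun j => ev (ts j)) i (ev z)) := by
      intro z
      simp only [ev, MonoAlg.eval_func]
      congr 1
      funext j
      by_cases hj : j = i
      · subst hj; simp
      · simp [hj]
    simp only [lt', Prod.lex_def] at hst ⊢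
    rw [hev, hev]
    rcases hst with h | ⟨h, h'⟩
    · left; exact M.mono f _ i _ _ h
    · right; exact ⟨by rw [h], hmono f ts i s t h'⟩
  · intro p hp σ
    simp only [lt', Prod.lex_def]
    left
    simp only [ev, MonoAlg.eval_subst]
    exact hM p hp _

/-- Conversely, total termination yields a compatible algebra on the ground terms. -/
theorem TRS.TotallyTerminating.exists_monoAlg {L : FirstOrder.Language.{u, v}} {R : TRS L}
    {lt : L.Term Empty → L.Term Empty → Prop} [hwo : IsWellOrder (L.Term Empty) lt]
    (hmono : Monotonic L lt)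
    (hR : ∀ p ∈ R.rules, ∀ σ : ℕ → L.Term Empty, lt (p.2.subst σ) (p.1.subst σ)) :
    ∃ M : @MonoAlg L (L.Term Empty) (@linearOrderOfSTO _ lt _ (Classical.decRel _)),
      @MonoAlg.Compat _ _ (@linearOrderOfSTO _ lt _ (Classical.decRel _)) M R := by
  let _ := @linearOrderOfSTO _ lt _ (Classical.decRel _)
  let M : MonoAlg L (L.Term Empty) := ⟨fun f ts => Term.func f ts, fun f ts i x y h => hmono f ts i x y h⟩
  refine ⟨M, ?_⟩
  have hev : ∀ (t : L.Term ℕ) (v : ℕ → L.Term Empty), M.eval v t = t.subst v := by
    intro t v
    induction t with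
    | var x => rfl
    | func f ts ih => simp only [MonoAlg.eval_func, ih]; rfl
  intro p hp v
  rw [hev, hev]
  exact hR p hp v

end Pool.Agent.TotalTermination
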