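import Mathlib
import Pool.Agent.Lib.MP_8e1749_lc.Basic

/-!
# Stretching a compatible algebra to a prescribed cardinal of the same cofinality
-/

namespace Pool.Agent.TotalTermination

open FirstOrder FirstOrder.Language Cardinal Ordinal

universe u v w u' v' w'

/-- The additive well-ordered monoid of finitely supported functions on the ordinals, with
the most significant place being the largest ordinal. -/
abbrev FS : Type (w + 1) := Lex (Ordinal.{w}ᵒᵈ →₀ ℕ)

/-- finitely supported functions supported below `μ` -/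
def below (μ : Ordinal.{w}) (b : FS.{w}) : Prop :=
  ∀ x ∈ (ofLex b).support, OrderDual.ofDual x < μ

theorem below_zero (μ : Ordinal.{w}) : below μ (0 : FS.{w}) := by
  intro x hx
  have : (ofLex (0 : FS.{w})) = 0 := rfl
  simp [this] at hx

theorem below_add {μ : Ordinal.{w}} {b c : FS.{w}} (hb : below μ b) (hc : below μ c) :
    below μ (b + c) := by
  intro x hx
  have : ofLex (b + c) = ofLex b + ofLex c := rfl
  rw [this] at hx
  have := Finsupp.support_add hx
  rcases Finset.mem_union.1 this with h | h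
  · exact hb x h
  · exact hc x h

theorem below_sum {μ : Ordinal.{w}} {ι : Type*} (s : Finset ι) (b : ι → FS.{w})
    (hb : ∀ i ∈ s, below μ (b i)) : below μ (∑ i ∈ s, b i) := by
  classical
  induction s using Finset.induction_on with
  | empty => simpa using below_zero μ
  | insert i s hi ih =>
    rw [Finset.sum_insert hi]
    exact below_add (hb i (by simp)) (ih fun j hj => hb j (by simp [hj]))

theorem below.mono {μ ν : Ordinal.{w}} {b : FS.{w}} (hb : below μ b) (h : μ ≤ ν) : below ν b :=
  fun x hx => (hb x hx).trans_le h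

theorem mk_below (μ : Ordinal.{w}) (hμ : ω ≤ μ) :
    #{b : FS.{w} // below μ b} = Cardinal.lift.{w + 1} μ.card := by
  have h1 : #{b : FS.{w} // below μ b} = #((OrderDual.ofDual ⁻¹' Set.Iio μ : Set Ordinal.{w}ᵒᵈ) →₀ ℕ) := by
    rw [← Cardinal.mk_congr (Finsupp.restrictSupportEquiv
      (OrderDual.ofDual ⁻¹' Set.Iio μ : Set Ordinal.{w}ᵒᵈ) ℕ)]
    exact Cardinal.mk_congr ⟨fun b => ⟨ofLex b.1, fun x hx => b.2 x hx⟩,
      fun b => ⟨toLex b.1, fun x hx => b.2 hx⟩, fun b => rfl, fun b => rfl⟩
  have h2 : #(OrderDual.ofDual ⁻¹' Set.Iio μ : Set Ordinal.{w}ᵒᵈ) = Cardinal.lift.{w + 1} μ.card := by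
    rw [← Cardinal.mk_Iio_ordinal]
    exact Cardinal.mk_congr ⟨fun x => ⟨OrderDual.ofDual x.1, x.2⟩,
      fun x => ⟨OrderDual.toDual x.1, x.2⟩, fun x => rfl, fun x => rfl⟩
  have h3 : Nonempty (OrderDual.ofDual ⁻¹' Set.Iio μ : Set Ordinal.{w}ᵒᵈ) :=
    ⟨⟨OrderDual.toDual 0, lt_of_lt_of_le omega0_pos hμ⟩⟩
  rw [h1, Cardinal.mk_finsupp_nat, h2]
  refine max_eq_left ?_
  rw [← Cardinal.lift_aleph0.{w + 1, w}, Cardinal.lift_le]
  exact Ordinal.aleph0_le_card.2 hμ

theorem type_eq_ord {C : Type w} [LinearOrder C] [WellFoundedLT C] (κ : Cardinal.{w})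
    (h1 : κ ≤ #C) (h2 : ∀ c : C, #(Set.Iio c) < κ) :
    Ordinal.type (α := C) (· < ·) = κ.ord := by
  apply le_antisymm
  · apply le_of_forall_lt
    intro o ho
    obtain ⟨c, rfl⟩ := Ordinal.typein_surj _ ho
    rw [Cardinal.lt_ord, Ordinal.card_typein]
    exact h2 c
  · rw [Cardinal.ord_le, Ordinal.card_type]
    exact h1

section Construction

variable {L : FirstOrder.Language.{u, v}} {A : Type w} [LinearOrder A] [WellFoundedLT A]

/-- The carrier of the stretched algebra. -/
abbrev Stretch (ρ : A → Ordinal.{w}) : Type (w + 1) :=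
  {p : A ×ₗ FS.{w} // below (ω_ (ρ (ofLex p).1)) (ofLex p).2}

variable (M : MonoAlg L A) (ρ : A → Ordinal.{w}) (hρ : Monotone ρ)

/-- the stretched algebra -/
noncomputable def stretch : MonoAlg L (Stretch ρ) where
  op f c := ⟨toLex (M.op f (fun i => (ofLex (c i).1).1), ∑ i, (ofLex (c i).1).2), by
    apply below_sum
    intro i _
    refine (c i).2.mono ?_
    apply Ordinal.omega_le_omega.2
    exact hρ (M.le_op f (fun i => (ofLex (c i).1).1) i)⟩
  mono f a i x y hxy := by
    have hupd : ∀ z : Stretch ρ, (fun j => (ofLex (Function.update a i z j).1).1) =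
        Function.update (fun j => (ofLex (a j).1).1) i (ofLex z.1).1 := by
      intro z
      funext j
      by_cases hj : j = i
      · subst hj; simp
      · simp [hj]
    have hupd' : ∀ z : Stretch ρ, (fun j => (ofLex (Function.update a i z j).1).2) =
        Function.update (fun j => (ofLex (a j).1).2) i (ofLex z.1).2 := by
      intro z
      funext j
      by_cases hj : j = i
      · subst hj; simp
      · simp [hj]
    apply Subtype.coe_lt_coe.1
    rw [Prod.Lex.lt_iff]
    simp only [ofLex_toLex, hupd]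
    have hxy' : x.1 < y.1 := hxy
    rw [Prod.Lex.lt_iff] at hxy'
    rcases hxy' with h | ⟨h, h'⟩
    · left; exact M.mono f _ i _ _ h
    · right
      refine ⟨by rw [h], ?_⟩
      have e : ∀ z : Stretch ρ, ∑ j, (ofLex (Function.update a i z j).1).2 =
          (ofLex z.1).2 + ∑ j ∈ Finset.univ \ {i}, (ofLex (a j).1).2 := by
        intro z
        have := Finset.sum_update_of_mem (Finset.mem_univ i) (fun j => (ofLex (a j).1).2)
          (ofLex z.1).2
        rw [← this, ← hupd']
      rw [e x, e y]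
      exact add_lt_add_left h' _

theorem eval_stretch {α : Type*} (v : α → Stretch ρ) (t : L.Term α) :
    (ofLex ((stretch M ρ hρ).eval v t).1).1 = M.eval (fun x => (ofLex (v x).1).1) t := by
  induction t with
  | var x => rfl
  | func f ts ih =>
    simp only [MonoAlg.eval_func]
    rw [← funext ih]
    rfl

theorem compat_stretch {R : TRS L} (h : M.Compat R) : (stretch M ρ hρ).Compat R := by
  intro p hp v
  apply Subtype.coe_lt_coe.1
  rw [Prod.Lex.lt_iff]
  left
  rw [eval_stretch, eval_stretch]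
  exact h p hp _

/-- the order type of the stretched algebra -/
theorem type_stretch (o l : Ordinal.{w}) (hl : Order.IsSuccLimit l) (hA : #A ≤ ℵ_ o)
    (r : A → Ordinal.{w}) (hr : Monotone r) (hrl : ∀ a, r a < l) (hr' : ∀ i < l, ∃ a, i ≤ r a) :
    Ordinal.type (α := Stretch (fun a : A => o + r a)) (· < ·) =
      Ordinal.lift.{w + 1} (ω_ (o + l)) := by
  have hκ : Ordinal.lift.{w + 1} (ω_ (o + l)) = (Cardinal.lift.{w + 1} (ℵ_ (o + l))).ord := by
    rw [← Cardinal.ord_aleph, Cardinal.lift_ord]
  rw [hκ]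
  have hω : ∀ j : Ordinal.{w}, ω ≤ ω_ j := fun j => Ordinal.omega0_le_omega j
  apply type_eq_ord
  · by_contra hcon
    rw [not_le] at hcon
    obtain ⟨c, hc⟩ := Cardinal.mem_range_lift_of_le hcon.le
    rw [← hc, Cardinal.lift_lt] at hcon
    have hlim : Order.IsSuccLimit (o + l) := Ordinal.isSuccLimit_add o hl
    rw [Cardinal.aleph_limit hlim] at hcon
    have : Nonempty (Set.Iio (o + l)) := ⟨⟨0, hlim.bot_lt⟩⟩
    obtain ⟨a, ha⟩ := exists_lt_of_lt_ciSup hcon
    obtain ⟨i, hi, hai⟩ : ∃ i < l, (a : Ordinal.{w}) ≤ o + i := by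
      have h1 : (a : Ordinal.{w}) < o + l := a.2
      rcases lt_or_ge (a : Ordinal.{w}) o with h | h
      · exact ⟨0, hl.bot_lt, by simpa using h.le⟩
      · refine ⟨a - o, ?_, ?_⟩
        · rw [Ordinal.sub_lt_of_le h]; exact h1
        · rw [Ordinal.add_sub_cancel_of_le h]
    obtain ⟨x, hx⟩ := hr' i hi
    have h2 : Cardinal.lift.{w + 1} (ℵ_ (o + r x)) ≤
        #(Stretch (fun a : A => o + r a)) := by
      have h3 := mk_below (ω_ (o + r x)) (hω _)
      rw [Ordinal.card_omega] at h3
      rw [← h3]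
      refine Cardinal.mk_le_of_injective (f := fun b => ⟨toLex (x, b.1), b.2⟩) ?_
      intro b b' hbb
      have := congrArg (fun c : Stretch (fun a : A => o + r a) => (ofLex c.1).2) hbb
      exact Subtype.ext this
    rw [← hc, Cardinal.lift_le] at h2
    have h4 : ℵ_ (a : Ordinal.{w}) ≤ ℵ_ (o + r x) :=
      Cardinal.aleph_le_aleph.2 (hai.trans (by gcongr))
    exact absurd ha (not_lt.2 (h4.trans h2))
  · intro c
    set a := (ofLex c.1).1 with ha
    have h1 : #(Set.Iio c) ≤ #(A × {b : FS.{w} // below (ω_ (o + r a)) b}) := by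
      refine Cardinal.mk_le_of_injective
        (f := fun d => ((ofLex d.1.1).1, ⟨(ofLex d.1.1).2, ?_⟩)) ?_
      · refine d.1.2.mono (Ordinal.omega_le_omega.2 ?_)
        have h2 : d.1.1 < c.1 := d.2
        rw [Prod.Lex.lt_iff] at h2
        have h3 : (ofLex d.1.1).1 ≤ a := by
          rcases h2 with h2 | h2
          · exact h2.le
          · exact h2.1.le
        have h4 := hr h3
        exact add_le_add_right h4 o
      · intro d d' hdd
        rw [Prod.mk.injEq] at hdd
        apply Subtype.ext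
        apply Subtype.ext
        exact congrArg toLex (Prod.ext hdd.1 (Subtype.mk.inj hdd.2))
    refine h1.trans_lt ?_
    have h5 : ℵ₀ ≤ ℵ_ (o + r a) := Cardinal.aleph0_le_aleph _
    have h6 : #A * ℵ_ (o + r a) ≤ ℵ_ (o + r a) := by
      refine (Cardinal.mul_le_max_of_aleph0_le_right h5).trans (max_le ?_ le_rfl)
      exact hA.trans (Cardinal.aleph_le_aleph.2 le_self_add)
    have h7 : #(A × {b : FS.{w} // below (ω_ (o + r a)) b}) =
        Cardinal.lift.{w + 1} (#A * ℵ_ (o + r a)) := by
      rw [Cardinal.mk_prod, mk_below _ (hω _), Ordinal.card_omega]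
      simp
    rw [h7, Cardinal.lift_lt]
    refine h6.trans_lt ?_
    rw [Cardinal.aleph_lt_aleph]
    exact add_lt_add_right (hrl a) o

end Construction

/-- A weakly monotone map to the initial ordinal of the cofinality, with unbounded range. -/
theorem exists_rank (A : Type w) [LinearOrder A] [Nonempty A] :
    ∃ r : A → Ordinal.{w}, Monotone r ∧ (∀ a, r a < (Order.cof A).ord) ∧
      ∀ i < (Order.cof A).ord, ∃ a, i ≤ r a := by
  obtain ⟨s, hs, hsc⟩ := Order.exists_cof_eq (α := A)
  have h1 : #s = #((Order.cof A).ord.ToType) := by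
    rw [hsc, Cardinal.mk_toType, Cardinal.card_ord]
  obtain ⟨e⟩ := Cardinal.eq.1 h1
  let idx : s → Ordinal.{w} := fun x => (Ordinal.ToType.mk.symm (e x)).1
  have hidx : ∀ x, idx x < (Order.cof A).ord := fun x => (Ordinal.ToType.mk.symm (e x)).2
  let S : A → Set Ordinal.{w} := fun a => {i | ∃ x : s, a ≤ x ∧ idx x = i}
  have hSne : ∀ a, (S a).Nonempty := by
    intro a
    obtain ⟨x, hx, hax⟩ := hs a
    exact ⟨_, ⟨x, hx⟩, hax, rfl⟩
  refine ⟨fun a => sInf (S a), ?_, ?_, ?_⟩
  · intro a b hab
    apply csInf_le_csInf (OrderBot.bddBelow _) (hSne b)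
    rintro i ⟨x, hx, rfl⟩
    exact ⟨x, hab.trans hx, rfl⟩
  · intro a
    obtain ⟨x, hx, hxi⟩ := csInf_mem (hSne a)
    show sInf (S a) < _
    rw [← hxi]
    exact hidx x
  · intro i hi
    let t : Set A := {a | ∃ h : a ∈ s, idx ⟨a, h⟩ < i}
    have ht : #t < Order.cof A := by
      have : #t ≤ i.card := by
        have h2 : #(Set.Iio i) = Cardinal.lift.{w + 1} i.card := Cardinal.mk_Iio_ordinal i
        rw [← Cardinal.lift_le.{w + 1}, ← h2, ← Cardinal.mk_uLift]
        refine Cardinal.mk_le_of_injective (f := fun a => ⟨idx ⟨a.down.1, a.down.2.1⟩, a.down.2.2⟩) ?_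
        intro a b hab
        have h3 := congrArg Subtype.val hab
        have h4 : e ⟨a.down.1, a.down.2.1⟩ = e ⟨b.down.1, b.down.2.1⟩ :=
          Ordinal.ToType.mk.symm.injective (Subtype.ext h3)
        have h5 := e.injective h4
        have h6 : (a.down.1 : A) = b.down.1 := congrArg (fun z : s => (z : A)) h5
        exact ULift.ext _ _ (Subtype.ext h6)
      exact this.trans_lt (Cardinal.lt_ord.1 hi)
    have hnt : ¬ IsCofinal t := fun h => absurd (Order.cof_le h) (not_le.2 ht)
    unfold IsCofinal at hnt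
    push Not at hnt
    obtain ⟨a, ha⟩ := hnt
    refine ⟨a, ?_⟩
    apply le_csInf (hSne a)
    rintro j ⟨x, hx, rfl⟩
    by_contra hlt
    rw [not_le] at hlt
    have : x.1 ∈ t := ⟨x.2, hlt⟩
    exact absurd hx (not_le.2 (ha _ this))

/-- **Stretching.** A compatible algebra on a well-order `A` without maximum can be replaced by
a compatible algebra on the initial ordinal of `ℵ_ (o + cof A)`, whenever `#A ≤ ℵ_ o`. -/
theorem exists_monoAlg_omega {L : FirstOrder.Language.{u, v}} {R : TRS L} {A : Type w}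
    [LinearOrder A] [WellFoundedLT A] [Nonempty A] [NoMaxOrder A] (M : MonoAlg L A)
    (hM : M.Compat R) (o : Ordinal.{w}) (ho : #A ≤ ℵ_ o) :
    ∃ M' : MonoAlg L (ω_ (o + (Order.cof A).ord)).ToType, M'.Compat R := by
  obtain ⟨r, hr, hrl, hr'⟩ := exists_rank A
  have hl : Order.IsSuccLimit (Order.cof A).ord :=
    Cardinal.isSuccLimit_ord Order.aleph0_le_cof
  have hty := type_stretch o _ hl ho r hr hrl hr'
  have hρ : Monotone (fun a : A => o + r a) := fun a b hab => add_le_add_right (hr hab) o
  have hiso : Nonempty ((fun x y : Stretch (fun a : A => o + r a) => x < y) ≃r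
      (fun x y : (ω_ (o + (Order.cof A).ord)).ToType => x < y)) := by
    rw [← Ordinal.lift_type_eq.{w + 1, w, w + 1}, hty]
    rw [Ordinal.type_toType, Ordinal.lift_id]
  obtain ⟨e⟩ := hiso
  let e' : Stretch (fun a : A => o + r a) ≃o (ω_ (o + (Order.cof A).ord)).ToType :=
    OrderIso.ofRelIsoLT e
  exact ⟨(stretch M _ hρ).map e', (compat_stretch M _ hρ hM).map e'⟩

/-- Replacing `A` by `A ×ₗ ℕ`: this removes a possible maximum. -/
def prodNat {L : FirstOrder.Language.{u, v}} {A : Type w} [LinearOrder A] (M : MonoAlg L A) :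
    MonoAlg L (A ×ₗ ℕ) where
  op f c := toLex (M.op f (fun i => (ofLex (c i)).1), ∑ i, (ofLex (c i)).2)
  mono f a i x y hxy := by
    have hupd : ∀ z : A ×ₗ ℕ, (fun j => (ofLex (Function.update a i z j)).1) =
        Function.update (fun j => (ofLex (a j)).1) i (ofLex z).1 := by
      intro z
      funext j
      by_cases hj : j = i
      · subst hj; simp
      · simp [hj]
    have hupd' : ∀ z : A ×ₗ ℕ, (fun j => (ofLex (Function.update a i z j)).2) =
        Function.update (fun j => (ofLex (a j)).2) i (ofLex z).2 := by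
      intro z
      funext j
      by_cases hj : j = i
      · subst hj; simp
      · simp [hj]
    rw [Prod.Lex.lt_iff] at hxy ⊢
    simp only [ofLex_toLex, hupd]
    rcases hxy with h | ⟨h, h'⟩
    · left; exact M.mono f _ i _ _ h
    · right
      refine ⟨by rw [h], ?_⟩
      have e : ∀ z : A ×ₗ ℕ, ∑ j, (ofLex (Function.update a i z j)).2 =
          (ofLex z).2 + ∑ j ∈ Finset.univ \ {i}, (ofLex (a j)).2 := by
        intro z
        have := Finset.sum_update_of_mem (Finset.mem_univ i) (fun j => (ofLex (a j)).2)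
          (ofLex z).2
        rw [← this, ← hupd']
      rw [e x, e y]
      exact add_lt_add_left h' _

theorem eval_prodNat {L : FirstOrder.Language.{u, v}} {A : Type w} [LinearOrder A]
    (M : MonoAlg L A) {α : Type*} (v : α → A ×ₗ ℕ) (t : L.Term α) :
    (ofLex ((prodNat M).eval v t)).1 = M.eval (fun x => (ofLex (v x)).1) t := by
  induction t with
  | var x => rfl
  | func f ts ih =>
    simp only [MonoAlg.eval_func]
    rw [← funext ih]
    rfl

theorem compat_prodNat {L : FirstOrder.Language.{u, v}} {A : Type w} [LinearOrder A]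
    {M : MonoAlg L A} {R : TRS L} (h : M.Compat R) : (prodNat M).Compat R := by
  intro p hp v
  rw [Prod.Lex.lt_iff]
  left
  rw [eval_prodNat, eval_prodNat]
  exact h p hp _

/-- If `R` over a countable signature with a constant is totally terminating, then it has a
compatible algebra on the initial ordinal of `ℵ_ω`. -/
theorem TRS.TotallyTerminating.exists_monoAlg_omega {L : FirstOrder.Language.{u, v}}
    [Countable (Σ n, L.Functions n)] [Nonempty L.Constants] {R : TRS L}
    (hR : R.TotallyTerminating) :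
    ∃ M' : MonoAlg L (ω_ ω : Ordinal.{u}).ToType, M'.Compat R := by
  obtain ⟨lt, hwo, hmono, hrules⟩ := hR
  let _ := @linearOrderOfSTO _ lt _ (Classical.decRel _)
  have : WellFoundedLT (L.Term Empty) := ⟨hwo.wf⟩
  obtain ⟨M, hM⟩ := TRS.TotallyTerminating.exists_monoAlg hmono hrules
  have hne : Nonempty (L.Term Empty) := ⟨(Classical.arbitrary L.Constants).term⟩
  have : Countable (L.Term Empty ×ₗ ℕ) :=
    inferInstanceAs (Countable (L.Term Empty × ℕ))
  have h := Pool.Agent.TotalTermination.exists_monoAlg_omega (prodNat M) (compat_prodNat hM) 0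
    (by rw [Cardinal.aleph_zero]; exact Cardinal.mk_le_aleph0)
  rwa [Order.cof_eq_aleph0, Cardinal.ord_aleph0, zero_add] at h

end Pool.Agent.TotalTermination
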