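import Mathlib
import Pool.Agent.Lib.MP_8e1749_lc.Defs
import Pool.Agent.Lib.MP_8e1749_lc.Stretch

/-!
# Total termination is modular for disjoint term rewrite systems over countable signatures

No assumption on duplicating rules is made. The signatures are arbitrary countable (in particular
arbitrary finite) signatures with at least one constant each.
-/

namespace Pool.Agent.TotalTermination.ModularCountable

open FirstOrder Pool.Agent.TotalTermination

universe u v v'

/-- If `R₁` and `R₂` are disjoint totally terminating term rewrite systems over countable
signatures (each with at least one constant), then `R₁ ∪ R₂` is totally terminating. -/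
theorem result (L₁ : FirstOrder.Language.{u, v}) (L₂ : FirstOrder.Language.{u, v'})
    [Countable (Σ n, L₁.Functions n)] [Countable (Σ n, L₂.Functions n)]
    [Nonempty L₁.Constants] [Nonempty L₂.Constants]
    (R₁ : TRS L₁) (R₂ : TRS L₂)
    (h₁ : R₁.TotallyTerminating) (h₂ : R₂.TotallyTerminating) :
    (R₁.disjointUnion R₂).TotallyTerminating := by
  obtain ⟨M₁, hM₁⟩ := h₁.exists_monoAlg_omega
  obtain ⟨M₂, hM₂⟩ := h₂.exists_monoAlg_omega
  exact TRS.TotallyTerminating.of_monoAlg (M₁.sum M₂) (hM₁.sum hM₂)

end Pool.Agent.TotalTermination.ModularCountable
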