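import Mathlib
import Pool.Agent.Lib.MP_8e1749_lc.Defs

/-!
# Two disjoint totally terminating systems with a union that is not totally terminating
-/

namespace Pool.Agent.TotalTermination

open FirstOrder FirstOrder.Language

universe u v

/-- number of occurrences of the variable `x` in a term -/
def occ {L : FirstOrder.Language.{u, v}} (x : ℕ) : L.Term ℕ → ℕ
  | Term.var y => if y = x then 1 else 0
  | Term.func _ ts => ∑ i, occ x (ts i)

/-- `R` has a duplicating rule: a rule `l → r` such that some variable has strictly more
occurrences in `r` than in `l`. -/
def TRS.HasDuplicatingRule {L : FirstOrder.Language.{u, v}} (R : TRS L) : Prop :=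
  ∃ p ∈ R.rules, ∃ x : ℕ, occ x p.1 < occ x p.2

end Pool.Agent.TotalTermination
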