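import Mathlib
import Pool.Agent.Lib.MP_8e1749_lc.Basic
import Pool.Agent.Lib.MP_8e1749_lc.NegDefs

/-!
# Two disjoint totally terminating systems with a union that is not totally terminating
-/

namespace Pool.Agent.TotalTermination

open FirstOrder FirstOrder.Language Cardinal Ordinal

universe u v w u' v' w'

/-! ### General lemmas on monotone algebras -/

namespace MonoAlg

variable {L : FirstOrder.Language.{u, v}} {A : Type w} [LinearOrder A] (M : MonoAlg L A)

theorem op_le_op {n : ℕ} (f : L.Functions n) {a b : Fin n → A} (hab : a ≤ b) :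
    M.op f a ≤ M.op f b := by
  classical
  have h : ∀ s : Finset (Fin n), M.op f a ≤ M.op f (s.piecewise b a) := by
    intro s
    induction s using Finset.induction_on with
    | empty => simp
    | insert j s hj ih =>
      refine ih.trans ?_
      rw [Finset.piecewise_insert]
      rcases (hab j).eq_or_lt with h | h
      · rw [← h]
        have : a j = s.piecewise b a j := by simp [hj]
        rw [this, Function.update_eq_self]
      · refine le_of_eq_of_le ?_ (M.mono f (s.piecewise b a) j (a j) (b j) h).le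
        have : a j = s.piecewise b a j := by simp [hj]
        rw [this, Function.update_eq_self]
  simpa using h Finset.univ

theorem eval_vec0 {α : Type u'} (v : α → A) (f : L.Functions 0) :
    M.eval v (Term.func f ![]) = M.op f ![] := by
  rw [eval_func]
  congr 1
  funext j
  exact j.elim0

theorem eval_vec1 {α : Type u'} (v : α → A) (f : L.Functions 1) (s : L.Term α) :
    M.eval v (Term.func f ![s]) = M.op f ![M.eval v s] := by
  rw [eval_func]
  congr 1
  funext j
  fin_cases j
  rfl

theorem eval_vec2 {α : Type u'} (v : α → A) (f : L.Functions 2) (s t : L.Term α) :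
    M.eval v (Term.func f ![s, t]) = M.op f ![M.eval v s, M.eval v t] := by
  rw [eval_func]
  congr 1
  funext j
  fin_cases j <;> rfl

theorem eval_vec5 {α : Type u'} (v : α → A) (f : L.Functions 5) (a b c d e : L.Term α) :
    M.eval v (Term.func f ![a, b, c, d, e]) =
      M.op f ![M.eval v a, M.eval v b, M.eval v c, M.eval v d, M.eval v e] := by
  rw [eval_func]
  congr 1
  funext j
  fin_cases j <;> rfl

/-- restriction of an algebra of the union to the left signature -/
def left {L₁ : FirstOrder.Language.{u, v}} {L₂ : FirstOrder.Language.{u', v'}}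
    (M : MonoAlg (L₁.sum L₂) A) : MonoAlg L₁ A where
  op {n} f a := M.op (n := n) (Sum.inl f) a
  mono {n} f a i x y hxy := M.mono (n := n) (Sum.inl f) a i x y hxy

/-- restriction of an algebra of the union to the right signature -/
def right {L₁ : FirstOrder.Language.{u, v}} {L₂ : FirstOrder.Language.{u', v'}}
    (M : MonoAlg (L₁.sum L₂) A) : MonoAlg L₂ A where
  op {n} f a := M.op (n := n) (Sum.inr f) a
  mono {n} f a i x y hxy := M.mono (n := n) (Sum.inr f) a i x y hxy

theorem eval_left {L₁ : FirstOrder.Language.{u, v}} {L₂ : FirstOrder.Language.{u', v'}}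
    (M : MonoAlg (L₁.sum L₂) A) {α : Type*} (v : α → A) (t : L₁.Term α) :
    M.left.eval v t = M.eval v (LHom.sumInl.onTerm t) := by
  induction t with
  | var x => rfl
  | func f ts ih =>
    simp only [LHom.onTerm, eval_func, ih]
    rfl

theorem eval_right {L₁ : FirstOrder.Language.{u, v}} {L₂ : FirstOrder.Language.{u', v'}}
    (M : MonoAlg (L₁.sum L₂) A) {α : Type*} (v : α → A) (t : L₂.Term α) :
    M.right.eval v t = M.eval v (LHom.sumInr.onTerm t) := by
  induction t with
  | var x => rfl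
  | func f ts ih =>
    simp only [LHom.onTerm, eval_func, ih]
    rfl

theorem Compat.left {L₁ : FirstOrder.Language.{u, v}} {L₂ : FirstOrder.Language.{u', v'}}
    {M : MonoAlg (L₁.sum L₂) A} {R₁ : TRS L₁} {R₂ : TRS L₂}
    (h : M.Compat (R₁.disjointUnion R₂)) : M.left.Compat R₁ := by
  intro p hp v
  rw [eval_left, eval_left]
  exact h (LHom.sumInl.onTerm p.1, LHom.sumInl.onTerm p.2) (Or.inl ⟨p, hp, rfl⟩) v

theorem Compat.right {L₁ : FirstOrder.Language.{u, v}} {L₂ : FirstOrder.Language.{u', v'}}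
    {M : MonoAlg (L₁.sum L₂) A} {R₁ : TRS L₁} {R₂ : TRS L₂}
    (h : M.Compat (R₁.disjointUnion R₂)) : M.right.Compat R₂ := by
  intro p hp v
  rw [eval_right, eval_right]
  exact h (LHom.sumInr.onTerm p.1, LHom.sumInr.onTerm p.2) (Or.inr ⟨p, hp, rfl⟩) v

end MonoAlg

/-! ### The countable system forcing cofinality `ω` -/

/-- function symbols of the first system: constants `c i`, binary symbols `h i` (`i : ℕ`) -/
inductive Sym₁ : ℕ → Type
  | c (i : ℕ) : Sym₁ 0
  | h (i : ℕ) : Sym₁ 2

/-- the first signature -/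
def L₁ : FirstOrder.Language.{0, 0} := ⟨Sym₁, fun _ => Empty⟩

/-- the constant symbol `c i` -/
def symC (i : ℕ) : L₁.Functions 0 := Sym₁.c i

/-- the binary symbol `h i` -/
def symH (i : ℕ) : L₁.Functions 2 := Sym₁.h i

/-- constants `c i` -/
def tc (i : ℕ) : L₁.Term ℕ := Term.func (symC i) ![]

/-- terms `h i (s, t)` -/
def th (i : ℕ) (s t : L₁.Term ℕ) : L₁.Term ℕ := Term.func (symH i) ![s, t]

/-- the first system: `h i (x, c i) → h (i+1) (x, x)` -/
def R₁ : TRS L₁ where
  rules := Set.range fun i : ℕ =>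
    (th i (Term.var 0) (tc i), th (i + 1) (Term.var 0) (Term.var 0))
  lhs_ne_var := by
    rintro p ⟨i, rfl⟩ x
    simp [th]
  rhs_vars := by
    rintro p ⟨i, rfl⟩
    intro x
    simp [th, tc, Fin.exists_fin_two, Finset.mem_biUnion]

theorem hasDup₁ : R₁.HasDuplicatingRule := by
  refine ⟨_, ⟨0, rfl⟩, 0, ?_⟩
  simp [occ, th, tc, Fin.sum_univ_two]

/-- the interpretation of the first system in `ℕ` -/
def M₁ : MonoAlg L₁ ℕ where
  op {n} f a := match n, f, a with
    | _, Sym₁.c i, _ => i
    | _, Sym₁.h i, a => (a 0 + 1 - i) ^ 2 + a 0 + a 1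
  mono {n} f a i x y hxy := by
    rcases f with k | k
    · exact i.elim0
    · fin_cases i
      · have : (x + 1 - k) ^ 2 ≤ (y + 1 - k) ^ 2 := by gcongr
        simp
        omega
      · simp
        omega

theorem compat₁ : M₁.Compat R₁ := by
  rintro p ⟨i, rfl⟩ v
  have e1 : M₁.eval v (th i (Term.var 0) (tc i)) = (v 0 + 1 - i) ^ 2 + v 0 + i := rfl
  have e2 : M₁.eval v (th (i + 1) (Term.var 0) (Term.var 0)) =
      (v 0 + 1 - (i + 1)) ^ 2 + v 0 + v 0 := rfl
  simp only [e1, e2]
  rcases le_or_gt i (v 0) with h | h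
  · obtain ⟨m, hm⟩ := Nat.exists_eq_add_of_le h
    have h1 : v 0 + 1 - i = m + 1 := by omega
    have h2 : v 0 + 1 - (i + 1) = m := by omega
    rw [h1, h2]
    have : (m + 1) ^ 2 = m ^ 2 + 2 * m + 1 := by ring
    omega
  · have h1 : v 0 + 1 - i = 0 := by omega
    have h2 : v 0 + 1 - (i + 1) = 0 := by omega
    rw [h1, h2]
    omega

/-- value of the constant `c i` -/
def cval {A : Type w} [LinearOrder A] (M : MonoAlg L₁ A) (i : ℕ) : A :=
  M.op (symC i) ![]

theorem forced₁ {A : Type w} [LinearOrder A] [WellFoundedLT A] {M : MonoAlg L₁ A}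
    (hM : M.Compat R₁) (t : A) : ∃ i, t < cval M i := by
  by_contra hcon
  push Not at hcon
  let H : ℕ → A := fun i => M.op (symH i) ![t, t]
  have hH : ∀ i, H (i + 1) < H i := by
    intro i
    have h1 : H (i + 1) < M.op (symH i) ![t, cval M i] := by
      have := hM _ ⟨i, rfl⟩ (fun _ => t)
      simp only [th, tc] at this
      rw [MonoAlg.eval_vec2, MonoAlg.eval_vec2, MonoAlg.eval_vec0] at this
      exact this
    refine h1.trans_le (M.op_le_op _ ?_)
    intro j
    fin_cases j
    · exact le_rfl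
    · exact hcon i
  exact (RelEmbedding.natGT H hH).not_wellFounded wellFounded_lt

/-! ### The first uncountable ordinal -/

/-- the first uncountable ordinal, as a type -/
abbrev Om : Type := (ℵ_ 1 : Cardinal.{0}).ord.ToType

theorem lt_aleph_one {c : Cardinal.{0}} (h : c < ℵ_ 1) : c ≤ ℵ₀ := by
  rwa [← Cardinal.succ_aleph0, Order.lt_succ_iff] at h

theorem countable_Iio_Om (x : Om) : (Set.Iio x).Countable := by
  rw [← Cardinal.le_aleph0_iff_set_countable]
  apply lt_aleph_one
  have h := Cardinal.mk_Iio_lt x (by rw [Cardinal.mk_ord_toType, Ordinal.type_toType])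
  rwa [Cardinal.mk_ord_toType] at h

/-- the ordinal represented by a point of `Om` -/
noncomputable def val (x : Om) : Ordinal.{0} := (Ordinal.ToType.mk.symm x).1

theorem val_lt (x : Om) : val x < (ℵ_ 1 : Cardinal.{0}).ord := (Ordinal.ToType.mk.symm x).2

theorem val_le_val {x y : Om} : val x ≤ val y ↔ x ≤ y :=
  (Ordinal.ToType.mk (o := (ℵ_ 1 : Cardinal.{0}).ord)).symm.le_iff_le

theorem val_lt_val {x y : Om} : val x < val y ↔ x < y :=
  (Ordinal.ToType.mk (o := (ℵ_ 1 : Cardinal.{0}).ord)).symm.lt_iff_lt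

/-- the point of `Om` representing a countable ordinal -/
noncomputable def pt (o : Ordinal.{0}) (ho : o < (ℵ_ 1 : Cardinal.{0}).ord) : Om :=
  Ordinal.ToType.mk ⟨o, Set.mem_Iio.2 ho⟩

theorem val_pt (o : Ordinal.{0}) (ho : o < (ℵ_ 1 : Cardinal.{0}).ord) : val (pt o ho) = o := by
  simp [val, pt]

theorem pt_lt_pt {a b : Ordinal.{0}} {ha : a < (ℵ_ 1 : Cardinal.{0}).ord}
    {hb : b < (ℵ_ 1 : Cardinal.{0}).ord} : pt a ha < pt b hb ↔ a < b := by
  rw [← val_lt_val, val_pt, val_pt]

theorem pt_le_pt {a b : Ordinal.{0}} {ha : a < (ℵ_ 1 : Cardinal.{0}).ord}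
    {hb : b < (ℵ_ 1 : Cardinal.{0}).ord} : pt a ha ≤ pt b hb ↔ a ≤ b := by
  rw [← val_le_val, val_pt, val_pt]

theorem countable_Iic_Om (x : Om) : (Set.Iic x).Countable := by
  rw [← Set.Iio_insert]
  exact (countable_Iio_Om x).insert x

theorem not_countable_Om : ¬ (Set.univ : Set Om).Countable := by
  rw [← Cardinal.le_aleph0_iff_set_countable, Cardinal.mk_univ, Cardinal.mk_ord_toType, not_le]
  exact Cardinal.aleph0_lt_aleph_one

theorem exists_gt_Om (j : ℕ → Om) : ∃ x, ∀ i, j i < x := by
  have h : (⋃ i, Set.Iic (j i)).Countable := Set.countable_iUnion fun i => countable_Iic_Om _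
  have h' : (⋃ i, Set.Iic (j i)) ≠ Set.univ := fun e => not_countable_Om (e ▸ h)
  obtain ⟨x, hx⟩ := (Set.ne_univ_iff_exists_notMem _).1 h'
  refine ⟨x, fun i => ?_⟩
  by_contra hcon
  exact hx (Set.mem_iUnion.2 ⟨i, not_lt.1 hcon⟩)

/-- Strictly monotone operations on `ω₁` with prescribed strict inequalities. -/
theorem exists_strict (k : ℕ) (P Q : Om → Fin k → Om) (i₀ : Fin k) (h0 : ∀ x, x ≤ P x i₀)
    (h1 : ∀ x y, P y ≤ Q x → y < x) :
    ∃ H : (Fin k → Om) → Om, StrictMono H ∧ ∀ x, H (Q x) < H (P x) := by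
  let r : (Fin k → Om) → (Fin k → Om) → Prop := fun a b => a < b ∨ ∃ x, a = Q x ∧ b = P x
  have step1 : ∀ x, ∀ a ≤ Q x, Acc r a := by
    intro x
    induction x using WellFoundedLT.induction with
    | _ x ihx =>
      intro a
      induction a using WellFoundedLT.induction with
      | _ a iha =>
        intro ha
        constructor
        rintro b (hb | ⟨y, rfl, rfl⟩)
        · exact iha b hb (hb.le.trans ha)
        · exact ihx y (h1 x y ha) (Q y) le_rfl
  have step2 : ∀ a, Acc r a := by
    intro a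
    induction a using WellFoundedLT.induction with
    | _ a iha =>
      constructor
      rintro b (hb | ⟨y, rfl, rfl⟩)
      · exact iha b hb
      · exact step1 y _ le_rfl
  have hwf : IsWellFounded _ r := ⟨⟨step2⟩⟩
  have hcount : ∀ a, {b | r b a}.Countable := by
    intro a
    have h2 : {b | r b a} ⊆ {f | ∀ i, f i ∈ Set.Iic (a i)} ∪ Q '' (Set.Iic (a i₀)) := by
      rintro b (hb | ⟨y, rfl, rfl⟩)
      · left
        exact fun i => hb.le i
      · right
        exact ⟨y, h0 y, rfl⟩
    exact ((Set.countable_pi fun i => countable_Iic_Om _).union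
      ((countable_Iic_Om _).image _)).mono h2
  have hreg : ((ℵ_ 1 : Cardinal.{0}).ord).cof = ℵ_ 1 := Cardinal.isRegular_aleph_one.cof_ord
  have hrank : ∀ a, IsWellFounded.rank r a < (ℵ_ 1 : Cardinal.{0}).ord := by
    intro a
    induction a using hwf.wf.induction with
    | _ a ih =>
      rw [IsWellFounded.rank_eq]
      refine Ordinal.iSup_add_one_lt_of_lt_cof ?_ ?_
      · rw [hreg]
        refine lt_of_le_of_lt ?_ Cardinal.aleph0_lt_aleph_one
        exact Cardinal.le_aleph0_iff_set_countable.2 (hcount a)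
      · rintro ⟨b, hb⟩
        exact ih b hb
  refine ⟨fun a => pt (IsWellFounded.rank r a) (hrank a), ?_, ?_⟩
  · intro a b hab
    rw [pt_lt_pt]
    exact IsWellFounded.rank_lt_of_rel (Or.inl hab)
  · intro x
    rw [pt_lt_pt]
    exact IsWellFounded.rank_lt_of_rel (Or.inr ⟨x, rfl, rfl⟩)

/-- `φ x k = ω * x + k` -/
theorem exists_phi : ∃ φ : Om → ℕ → Om, (∀ x k l, φ x k ≤ φ x l ↔ k ≤ l) ∧
    (∀ x y k l, x < y → φ x k < φ y l) ∧ ∀ x k, x ≤ φ x k := by
  have hlt : ∀ (x : Om) (k : ℕ), ω * val x + k < (ℵ_ 1 : Cardinal.{0}).ord := by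
    intro x k
    have hx := val_lt x
    rw [Cardinal.ord_aleph] at hx ⊢
    have hω : ω < ω_ 1 := Ordinal.omega0_lt_omega_one
    have h1 : ω * val x < ω_ 1 := Ordinal.isPrincipal_mul_omega 1 hω hx
    exact Ordinal.isPrincipal_add_omega 1 h1 ((Ordinal.natCast_lt_omega0 k).trans hω)
  refine ⟨fun x k => pt _ (hlt x k), ?_, ?_, ?_⟩
  · intro x k l
    rw [pt_le_pt]
    simp
  · intro x y k l hxy
    rw [pt_lt_pt]
    have h1 : val x < val y := val_lt_val.2 hxy
    calc ω * val x + k < ω * val x + ω := add_lt_add_right (Ordinal.natCast_lt_omega0 k) _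
      _ = ω * (Order.succ (val x)) := by rw [Ordinal.mul_succ]
      _ ≤ ω * val y := by gcongr; exact Order.succ_le_of_lt h1
      _ ≤ _ := le_self_add
  · intro x k
    rw [← val_le_val, val_pt]
    refine le_trans ?_ le_self_add
    exact Ordinal.le_mul_right _ Ordinal.omega0_pos

instance : Nonempty Om :=
  ⟨pt 0 (by
    rw [Cardinal.ord_aleph]
    exact Ordinal.omega0_pos.trans Ordinal.omega0_lt_omega_one)⟩

/-- injections of the proper initial segments of `ω₁` into `ℕ` -/
theorem exists_inj : ∃ e : Om → Om → ℕ, ∀ x, Set.InjOn (e x) (Set.Iio x) := by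
  choose e he using fun x => Set.countable_iff_exists_injOn.1 (countable_Iio_Om x)
  exact ⟨e, he⟩

/-! ### The system of size `ℵ₁` forcing uncountable cofinality -/

/-- function symbols of the second system -/
inductive Sym₂ : ℕ → Type
  | d (j : Om) : Sym₂ 0
  | g : Sym₂ 1
  | F (z : Om) (n : ℕ) : Sym₂ 1
  | H (z : Om) (n : ℕ) : Sym₂ 2
  | K (z z' j : Om) (n : ℕ) : Sym₂ 5

/-- the second signature -/
def L₂ : FirstOrder.Language.{0, 0} := ⟨Sym₂, fun _ => Empty⟩

/-- the constant symbol `d j` -/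
def symD (j : Om) : L₂.Functions 0 := Sym₂.d j

/-- the unary symbol `g` -/
def symG : L₂.Functions 1 := Sym₂.g

/-- the unary symbol `F z n` -/
def symF (z : Om) (n : ℕ) : L₂.Functions 1 := Sym₂.F z n

/-- the binary symbol `H z n` -/
def symH' (z : Om) (n : ℕ) : L₂.Functions 2 := Sym₂.H z n

/-- the 5-ary symbol `K z z' j n` -/
def symK (z z' j : Om) (n : ℕ) : L₂.Functions 5 := Sym₂.K z z' j n

/-- terms `d j` -/
def td (j : Om) : L₂.Term ℕ := Term.func (symD j) ![]

/-- terms `g s` -/
def tg (s : L₂.Term ℕ) : L₂.Term ℕ := Term.func symG ![s]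

/-- terms `F z n s` -/
def tF (z : Om) (n : ℕ) (s : L₂.Term ℕ) : L₂.Term ℕ := Term.func (symF z n) ![s]

/-- terms `H z n (s, t)` -/
def tH (z : Om) (n : ℕ) (s t : L₂.Term ℕ) : L₂.Term ℕ := Term.func (symH' z n) ![s, t]

/-- terms `K z z' j n (a, b, c, d, e)` -/
def tK (z z' j : Om) (n : ℕ) (a b c d e : L₂.Term ℕ) : L₂.Term ℕ :=
  Term.func (symK z z' j n) ![a, b, c, d, e]

/-- the variable -/
def X : L₂.Term ℕ := Term.var 0

/-- The rules of the second system. -/
inductive Rule₂ : L₂.Term ℕ × L₂.Term ℕ → Prop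
  | dd (i j : Om) (h : i < j) : Rule₂ (td j, td i)
  | Fg (z : Om) : Rule₂ (tF z 0 X, tg X)
  | HH (z : Om) (n : ℕ) :
      Rule₂ (tH z n (tF z n X) (tg X), tH z n (tF z (n + 1) X) (tF z n X))
  | KK (z z' j : Om) (n : ℕ) (hzz : z ≠ z') (hz : z < j) (hz' : z' < j) :
      Rule₂ (tK z z' j n (td j) (tF z (n + 1) X) (tF z' (n + 1) X) (tg X) (tg X),
        tK z z' j n X (tg X) (tg X) (tF z n X) (tF z' n X))

/-- the second system -/
def R₂ : TRS L₂ where
  rules := {p | Rule₂ p}
  lhs_ne_var := by
    rintro p hp x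
    cases hp <;> simp [td, tF, tH, tK]
  rhs_vars := by
    rintro p hp
    cases hp <;> intro x <;>
      simp [td, tg, tF, tH, tK, X, Fin.exists_fin_succ, Finset.mem_biUnion]

theorem hasDup₂ : R₂.HasDuplicatingRule := by
  obtain ⟨z, z', j, hzz, hz, hz'⟩ : ∃ z z' j : Om, z ≠ z' ∧ z < j ∧ z' < j := by
    obtain ⟨x, hx⟩ := exists_gt_Om (fun _ => Classical.arbitrary Om)
    obtain ⟨y, hy⟩ := exists_gt_Om (fun _ => x)
    exact ⟨_, x, y, (hx 0).ne, (hx 0).trans (hy 0), hy 0⟩
  refine ⟨_, Rule₂.KK z z' j 0 hzz hz hz', 0, ?_⟩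
  simp [occ, td, tg, tF, tK, X, Fin.sum_univ_succ]

/-- compatible algebras for the second system on `ω₁` exist -/
theorem exists_compat₂ : ∃ M : MonoAlg L₂ Om, M.Compat R₂ := by
  obtain ⟨φ, hφ, hφ', hφx⟩ := exists_phi
  obtain ⟨e, he⟩ := exists_inj
  -- φ y k ≤ φ x l implies y ≤ x
  have hφle : ∀ x y k l, φ y k ≤ φ x l → y ≤ x := by
    intro x y k l h
    by_contra hcon
    exact absurd h (not_le.2 (hφ' x y l k (not_le.1 hcon)))
  let G : Om → Om := fun x => φ x 1
  let F : Om → ℕ → Om → Om := fun z n x => φ x (2 * e x z + 2 - n)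
  have hH : ∀ (z : Om) (n : ℕ), ∃ H : (Fin 2 → Om) → Om, StrictMono H ∧
      ∀ x, H ![F z (n + 1) x, F z n x] < H ![F z n x, G x] := by
    intro z n
    refine exists_strict 2 (fun x => ![F z n x, G x]) (fun x => ![F z (n + 1) x, F z n x]) 0
      (fun x => hφx _ _) ?_
    intro x y h
    have h0 : F z n y ≤ F z (n + 1) x := h 0
    have h1 : G y ≤ F z n x := h 1
    have hyx : y ≤ x := hφle _ _ _ _ h0
    refine lt_of_le_of_ne hyx ?_
    rintro rfl
    have h0' := (hφ _ _ _).1 h0
    have h1' := (hφ _ _ _).1 h1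
    omega
  have hK : ∀ (z z' j : Om) (n : ℕ), ∃ K : (Fin 5 → Om) → Om, StrictMono K ∧
      (z ≠ z' → z < j → z' < j → ∀ x, K ![x, G x, G x, F z n x, F z' n x] <
        K ![j, F z (n + 1) x, F z' (n + 1) x, G x, G x]) := by
    intro z z' j n
    by_cases hc : z ≠ z' ∧ z < j ∧ z' < j
    · obtain ⟨hzz, hz, hz'⟩ := hc
      obtain ⟨K, hK1, hK2⟩ := exists_strict 5
        (fun x => ![j, F z (n + 1) x, F z' (n + 1) x, G x, G x])
        (fun x => ![x, G x, G x, F z n x, F z' n x]) 1 (fun x => hφx _ _) (by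
          intro x y h
          have h0 : j ≤ x := h 0
          have h1 : F z (n + 1) y ≤ G x := h 1
          have h2 : F z' (n + 1) y ≤ G x := h 2
          have h3 : G y ≤ F z n x := h 3
          have h4 : G y ≤ F z' n x := h 4
          have hyx : y ≤ x := hφle _ _ _ _ h1
          refine lt_of_le_of_ne hyx ?_
          rintro rfl
          have h1' := (hφ _ _ _).1 h1
          have h2' := (hφ _ _ _).1 h2
          have h3' := (hφ _ _ _).1 h3
          have h4' := (hφ _ _ _).1 h4
          have h5 : e y z = e y z' := by omega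
          exact hzz (he y (lt_of_lt_of_le hz h0) (lt_of_lt_of_le hz' h0) h5))
      exact ⟨K, hK1, fun _ _ _ => hK2⟩
    · obtain ⟨K, hK1, -⟩ := exists_strict 5 (fun x => ![x, x, x, x, φ x 1])
        (fun x => ![x, x, x, x, φ x 0]) 0 (fun x => le_rfl) (by
          intro x y h
          have h1 : φ y 1 ≤ φ x 0 := h 4
          refine lt_of_le_of_ne (hφle _ _ _ _ h1) ?_
          rintro rfl
          have := (hφ _ _ _).1 h1
          omega)
      exact ⟨K, hK1, fun h1 h2 h3 => absurd ⟨h1, h2, h3⟩ hc⟩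
  choose H hHm hH using hH
  choose K hKm hK using hK
  have hupd : ∀ {k : ℕ} (a : Fin k → Om) (i : Fin k) (x y : Om), x < y →
      Function.update a i x < Function.update a i y := by
    intro k a i x y hxy
    rw [Pi.lt_def]
    refine ⟨?_, i, by simpa using hxy⟩
    intro j
    by_cases hj : j = i
    · subst hj; simpa using hxy.le
    · simp [hj]
  let M : MonoAlg L₂ Om :=
    { op := fun {n} f a => match n, f, a with
        | _, Sym₂.d j, _ => j
        | _, Sym₂.g, a => G (a 0)
        | _, Sym₂.F z n, a => F z n (a 0)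
        | _, Sym₂.H z n, a => H z n a
        | _, Sym₂.K z z' j n, a => K z z' j n a
      mono := by
        intro n f a i x y hxy
        rcases f with j | _ | ⟨z, m⟩ | ⟨z, m⟩ | ⟨z, z', j, m⟩
        · exact i.elim0
        · have hi : i = 0 := Subsingleton.elim _ _
          subst hi
          simpa using hφ' x y 1 1 hxy
        · have hi : i = 0 := Subsingleton.elim _ _
          subst hi
          simpa using hφ' x y _ _ hxy
        · exact hHm z m (hupd a i x y hxy)
        · exact hKm z z' j m (hupd a i x y hxy) }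
  have e0 : ∀ (v : ℕ → Om) j, M.eval v (td j) = j := fun v j => rfl
  have eX : ∀ (v : ℕ → Om), M.eval v X = v 0 := fun v => rfl
  have eG : ∀ (v : ℕ → Om) s, M.eval v (tg s) = G (M.eval v s) := fun v s => rfl
  have eF : ∀ (v : ℕ → Om) z n s, M.eval v (tF z n s) = F z n (M.eval v s) := fun v z n s => rfl
  have eH : ∀ (v : ℕ → Om) z n s t, M.eval v (tH z n s t) = H z n ![M.eval v s, M.eval v t] := by
    intro v z n s t
    rw [tH, MonoAlg.eval_vec2]
    rfl
  have eK : ∀ (v : ℕ → Om) z z' j n a b c d e', M.eval v (tK z z' j n a b c d e') =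
      K z z' j n ![M.eval v a, M.eval v b, M.eval v c, M.eval v d, M.eval v e'] := by
    intro v z z' j n a b c d e'
    rw [tK, MonoAlg.eval_vec5]
    rfl
  refine ⟨M, ?_⟩
  intro p hp v
  rcases hp with ⟨i, j, hij⟩ | ⟨z⟩ | ⟨z, n⟩ | ⟨z, z', j, n, hzz, hz, hz'⟩
  · exact hij
  · simp only [eF, eG, eX]
    have : G (v 0) < F z 0 (v 0) := by
      rw [← not_le]
      intro h
      have := (hφ _ _ _).1 h
      omega
    exact this
  · simp only [eH, eF, eG, eX]
    exact hH z n (v 0)
  · simp only [eK, eF, eG, eX, e0]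
    exact hK z z' j n hzz hz hz' (v 0)

/-- value of the constant `d j` -/
def dval {A : Type w} [LinearOrder A] (M : MonoAlg L₂ A) (j : Om) : A :=
  M.op (symD j) ![]

theorem dval_lt {A : Type w} [LinearOrder A] {M : MonoAlg L₂ A}
    (hM : M.Compat R₂) {i j : Om} (hij : i < j) : dval M i < dval M j := by
  by_cases hA : Nonempty A
  · have := hM _ (Rule₂.dd i j hij) (fun _ => Classical.arbitrary A)
    simp only [td] at this
    rwa [MonoAlg.eval_vec0, MonoAlg.eval_vec0] at this
  · exact absurd ⟨dval M i⟩ hA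

theorem forced₂ {A : Type w} [LinearOrder A] [WellFoundedLT A] {M : MonoAlg L₂ A}
    (hM : M.Compat R₂) (t : A) : ∃ j, t < dval M j := by
  by_contra hcon
  push Not at hcon
  let g : A := M.op symG ![t]
  let F : Om → ℕ → A := fun z n => M.op (symF z n) ![t]
  have hFg : ∀ z, g < F z 0 := by
    intro z
    have := hM _ (Rule₂.Fg z) (fun _ => t)
    simp only [tF, tg, X] at this
    rwa [MonoAlg.eval_vec1, MonoAlg.eval_vec1] at this
  have hHH : ∀ z n, M.op (symH' z n) ![F z (n + 1), F z n] < M.op (symH' z n) ![F z n, g] := by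
    intro z n
    have := hM _ (Rule₂.HH z n) (fun _ => t)
    simp only [tF, tg, tH, X] at this
    simpa only [MonoAlg.eval_vec1, MonoAlg.eval_vec2, MonoAlg.eval_var] using this
  have hKK : ∀ z z' j n, z ≠ z' → z < j → z' < j →
      M.op (symK z z' j n) ![t, g, g, F z n, F z' n] <
        M.op (symK z z' j n) ![dval M j, F z (n + 1), F z' (n + 1), g, g] := by
    intro z z' j n hzz hz hz'
    have := hM _ (Rule₂.KK z z' j n hzz hz hz') (fun _ => t)
    simp only [tF, tg, tK, td, X] at this
    simp only [MonoAlg.eval_vec1, MonoAlg.eval_vec5, MonoAlg.eval_vec0,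
      MonoAlg.eval_var] at this
    exact this
  -- for every `z` the sequence `F z n` reaches `g`
  have hN : ∀ z, ∃ n, F z n ≤ g := by
    intro z
    by_contra hz
    push Not at hz
    have hdec : ∀ n, F z (n + 1) < F z n := by
      intro n
      by_contra hn
      rw [not_lt] at hn
      refine absurd (hHH z n) (not_lt.2 (M.op_le_op _ ?_))
      intro i
      fin_cases i
      · exact hn
      · exact (hz n).le
    exact (RelEmbedding.natGT (F z) hdec).not_wellFounded wellFounded_lt
  classical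
  let N : Om → ℕ := fun z => Nat.find (hN z)
  have hN1 : ∀ z, F z (N z) ≤ g := fun z => Nat.find_spec (hN z)
  have hN2 : ∀ z m, m < N z → g < F z m := fun z m hm => not_le.1 (Nat.find_min (hN z) hm)
  have hN3 : ∀ z, N z ≠ 0 := by
    intro z h
    have := hN1 z
    rw [h] at this
    exact absurd (hFg z) (not_lt.2 this)
  have hNinj : ¬ Function.Injective N := by
    intro hinj
    exact not_countable_Om (Set.countable_univ_iff.2 (Function.Injective.countable hinj))
  unfold Function.Injective at hNinj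
  push Not at hNinj
  obtain ⟨z, z', hzN, hzz⟩ := hNinj
  obtain ⟨j, hj⟩ := exists_gt_Om (fun _ => max z z')
  have hz : z < j := (le_max_left _ _).trans_lt (hj 0)
  have hz' : z' < j := (le_max_right _ _).trans_lt (hj 0)
  obtain ⟨n, hn⟩ := Nat.exists_eq_succ_of_ne_zero (hN3 z)
  refine absurd (hKK z z' j n hzz hz hz') (not_lt.2 (M.op_le_op _ ?_))
  intro i
  fin_cases i
  · exact hcon j
  · have := hN1 z
    rw [hn] at this
    exact this
  · have := hN1 z'
    rw [← hzN, hn] at this
    exact this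
  · exact (hN2 z n (by omega)).le
  · exact (hN2 z' n (by omega)).le

/-- The union of the two systems is not totally terminating. -/
theorem not_totallyTerminating_union : ¬ (R₁.disjointUnion R₂).TotallyTerminating := by
  rintro ⟨lt, hwo, hmono, hrules⟩
  let _ := @linearOrderOfSTO _ lt _ (Classical.decRel _)
  have : WellFoundedLT ((L₁.sum L₂).Term Empty) := ⟨hwo.wf⟩
  obtain ⟨M, hM⟩ := TRS.TotallyTerminating.exists_monoAlg hmono hrules
  have h1 := hM.left
  have h2 := hM.right
  choose j hj using fun i => forced₂ h2 (cval M.left i)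
  obtain ⟨x, hx⟩ := exists_gt_Om j
  obtain ⟨i, hi⟩ := forced₁ h1 (dval M.right x)
  exact absurd (hi.trans (hj i)) (not_lt.2 (dval_lt h2 (hx i)).le)

theorem totallyTerminating₁ : R₁.TotallyTerminating :=
  TRS.TotallyTerminating.of_monoAlg M₁ compat₁

theorem totallyTerminating₂ : R₂.TotallyTerminating := by
  obtain ⟨M, hM⟩ := exists_compat₂
  exact TRS.TotallyTerminating.of_monoAlg M hM

end Pool.Agent.TotalTermination
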