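import Mathlib
import Pool.Agent.Lib.MP_8e1749_lc.Negative

/-!
# The sizes of the two signatures
-/

namespace Pool.Agent.TotalTermination

open FirstOrder FirstOrder.Language Cardinal Ordinal

theorem nonempty_constants₁ : Nonempty L₁.Constants := ⟨symC 0⟩

theorem nonempty_constants₂ : Nonempty L₂.Constants := ⟨symD (Classical.arbitrary Om)⟩

theorem countable₁ : Countable (Σ n, L₁.Functions n) := by
  let f : (Σ n, L₁.Functions n) → Bool × ℕ := fun s => match s with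
    | ⟨_, Sym₁.c i⟩ => (true, i)
    | ⟨_, Sym₁.h i⟩ => (false, i)
  refine Function.Injective.countable (f := f) ?_
  rintro ⟨n, s⟩ ⟨m, t⟩ h
  rcases s with i | i <;> rcases t with j | j <;> simp_all [f]

theorem card₂ : #(Σ n, L₂.Functions n) = ℵ_ 1 := by
  have hOm : #Om = ℵ_ 1 := Cardinal.mk_ord_toType _
  apply le_antisymm
  · let o : Om := Classical.arbitrary Om
    let f : (Σ n, L₂.Functions n) → (ℕ × ℕ) × (Om × Om × Om) := fun s => match s with
      | ⟨_, Sym₂.d j⟩ => ((0, 0), (j, o, o))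
      | ⟨_, Sym₂.g⟩ => ((1, 0), (o, o, o))
      | ⟨_, Sym₂.F z n⟩ => ((2, n), (z, o, o))
      | ⟨_, Sym₂.H z n⟩ => ((3, n), (z, o, o))
      | ⟨_, Sym₂.K z z' j n⟩ => ((4, n), (z, z', j))
    have hf : Function.Injective f := by
      rintro ⟨n, s⟩ ⟨m, t⟩ h
      rcases s with j | _ | ⟨z, m⟩ | ⟨z, m⟩ | ⟨z, z', j, m⟩ <;>
        rcases t with j' | _ | ⟨y, m'⟩ | ⟨y, m'⟩ | ⟨y, y', j', m'⟩ <;> simp_all [f]
    refine (Cardinal.mk_le_of_injective hf).trans ?_
    have hℵ : ℵ₀ ≤ ℵ_ 1 := Cardinal.aleph0_le_aleph 1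
    simp only [Cardinal.mk_prod, Cardinal.lift_id, hOm, Cardinal.mk_eq_aleph0]
    rw [Cardinal.mul_eq_self hℵ, Cardinal.mul_eq_self hℵ, Cardinal.aleph0_mul_aleph]
  · rw [← hOm]
    refine Cardinal.mk_le_of_injective (f := fun j => (⟨0, symD j⟩ : Σ n, L₂.Functions n)) ?_
    intro i j h
    have h1 : symD i = symD j := by simpa using h
    exact Sym₂.d.inj h1

end Pool.Agent.TotalTermination
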