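import Mathlib
import Pool.Agent.Lib.MP_8e1749_lc.Defs
import Pool.Agent.Lib.MP_8e1749_lc.NegDefs
import Pool.Agent.Lib.MP_8e1749_lc.NegCard

/-!
# Total termination is not modular for disjoint term rewrite systems over arbitrary signatures

There is a counterexample where one signature is countable and the other one has size `ℵ₁`.
-/

namespace Pool.Agent.TotalTermination.NotModularUncountable

open FirstOrder Pool.Agent.TotalTermination Cardinal

/-- There are disjoint totally terminating term rewrite systems `R₁` (over a countable signature)
and `R₂` (over a signature with `ℵ₁` function symbols), each containing a duplicating rule, such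
that `R₁ ∪ R₂` is not totally terminating. -/
theorem result : ∃ (L₁ L₂ : FirstOrder.Language.{0, 0}) (R₁ : TRS L₁) (R₂ : TRS L₂),
    Nonempty L₁.Constants ∧ Nonempty L₂.Constants ∧
    Countable (Σ n, L₁.Functions n) ∧ #(Σ n, L₂.Functions n) = ℵ_ 1 ∧
    R₁.HasDuplicatingRule ∧ R₂.HasDuplicatingRule ∧
    R₁.TotallyTerminating ∧ R₂.TotallyTerminating ∧
    ¬ (R₁.disjointUnion R₂).TotallyTerminating :=
  ⟨L₁, L₂, R₁, R₂, nonempty_constants₁, nonempty_constants₂, countable₁, card₂, hasDup₁, hasDup₂,
    totallyTerminating₁, totallyTerminating₂, not_totallyTerminating_union⟩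

end Pool.Agent.TotalTermination.NotModularUncountable
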